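import Pool.Agent.H546.APStm

/-!
# AP9: three hypergeometric sequences, linear in the parameter
-/

set_option autoImplicit false

namespace Pool.Agent.H980.AP

open Pool.Agent.Q267.CDE (R)
open Pool.Agent.H546.AP

theorem lin_step {A : Type*} [CommRing A] {a a1 a2 a3 q c c' b b' x0 : A} (hq : q ^ 2 = 0)
    (e1 : a ^ 3 * c' = a1 * a2 * a3 * c)
    (e2 : a ^ 3 * b' = 3 * a ^ 2 * c' + a1 * a2 * a3 * b - (a1 * a2 + a1 * a3 + a2 * a3) * c) :
    (a1 - q) * (a2 - q) * (a3 - q) * (x0 * (c + q * b)) = (a - q) ^ 3 * (x0 * (c' + q * b')) := by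
  linear_combination (-x0) * e1 + (-x0 * q) * e2 + x0 * (((a1 + a2 + a3) * c -
    (a1 * a2 + a1 * a3 + a2 * a3) * b + q * ((a1 + a2 + a3) * b - c) - q ^ 2 * b) -
    (3 * a * c' - 3 * a ^ 2 * b' + q * (3 * a * b' - c') - q ^ 2 * b')) * hq

theorem h_S_lin : S_lin := by
  intro p hfact hp c h g hc0 hc hh hg
  have hp2 : ((p : R p)) ^ 2 = 0 := by
    have h1 : ((p ^ 2 : ℕ) : R p) = 0 := ZMod.natCast_self (p ^ 2)
    rwa [Nat.cast_pow] at h1
  have hq2 : (2 * (p : R p)) ^ 2 = 0 := by rw [mul_pow, hp2, mul_zero]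
  have hodd : p % 2 = 1 := (hfact.out.eq_two_or_odd).resolve_left (by omega)
  have key : ∀ j : ℕ, j ≤ (p - 1) / 2 → ∃ b : R p, h j = h 0 * (c j + p * b) ∧
      g j = g 0 * (c j + 2 * p * b) := by
    intro j
    induction j with
    | zero =>
      intro _
      exact ⟨0, by rw [hc0]; ring, by rw [hc0]; ring⟩
    | succ j ih =>
      intro hj
      obtain ⟨b, hb1, hb2⟩ := ih (by omega)
      have hA : IsUnit (4 * ((j : R p) + 1)) := by
        have h1 : (4 * ((j : R p) + 1)) = ((4 * (j + 1) : ℕ) : R p) := by push_cast; ring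
        rw [h1, ZMod.isUnit_iff_coprime]
        apply Nat.Coprime.pow_right
        apply Nat.Coprime.symm
        rw [Nat.Prime.coprime_iff_not_dvd hfact.out]
        intro h2
        rcases (Nat.Prime.dvd_mul hfact.out).1 h2 with h3 | h3
        · have := Nat.le_of_dvd (by norm_num) h3
          have h4 : p = 4 := by omega
          omega
        · have := Nat.le_of_dvd (by omega) h3
          omega
      obtain ⟨a, ha⟩ : ∃ a : R p, a = 4 * ((j : R p) + 1) := ⟨_, rfl⟩
      rw [← ha] at hA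
      have hApm : ∀ q : R p, q ^ 2 = 0 → IsUnit ((a - q) ^ 3) := by
        intro q hq
        apply IsUnit.pow
        have h1 : IsUnit ((a - q) * (a + q)) := by
          have h2 : (a - q) * (a + q) = a ^ 2 := by
            linear_combination -hq
          rw [h2]
          exact hA.pow 2
        exact isUnit_of_mul_isUnit_left h1
      have e1 := hc j (by omega)
      have e2 := hh j (by omega)
      have e3 := hg j (by omega)
      rw [← ha] at e1 e2
      obtain ⟨b', hb'⟩ : ∃ b' : R p, a ^ 3 * b' = 3 * a ^ 2 * c (j + 1) +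
          (4 * (j : R p) + 1) * (4 * (j : R p) + 2) * (4 * (j : R p) + 3) * b -
          ((4 * (j : R p) + 1) * (4 * (j : R p) + 2) + (4 * (j : R p) + 1) * (4 * (j : R p) + 3) +
            (4 * (j : R p) + 2) * (4 * (j : R p) + 3)) * c j := by
        obtain ⟨u, hu⟩ := hA.pow 3
        refine ⟨(↑u⁻¹ : R p) * (3 * a ^ 2 * c (j + 1) +
          (4 * (j : R p) + 1) * (4 * (j : R p) + 2) * (4 * (j : R p) + 3) * b -
          ((4 * (j : R p) + 1) * (4 * (j : R p) + 2) + (4 * (j : R p) + 1) * (4 * (j : R p) + 3) +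
            (4 * (j : R p) + 2) * (4 * (j : R p) + 3)) * c j), ?_⟩
        rw [← hu, ← mul_assoc, Units.mul_inv, one_mul]
      refine ⟨b', ?_, ?_⟩
      · apply (hApm (p : R p) hp2).mul_left_cancel
        rw [e2, hb1]
        exact lin_step hp2 e1 hb'
      · apply (hApm (2 * (p : R p)) hq2).mul_left_cancel
        have e4 : (a - 2 * (p : R p)) ^ 3 * g (j + 1) = (4 * (j : R p) + 1 - 2 * p) *
            (4 * (j : R p) + 2 - 2 * p) * (4 * (j : R p) + 3 - 2 * p) * g j := by
          rw [ha]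
          linear_combination 2 * e3
        rw [e4, hb2]
        exact lin_step hq2 e1 hb'
  intro j hj
  obtain ⟨b, hb1, hb2⟩ := key j hj
  rw [hb1, hb2]
  ring

end Pool.Agent.H980.AP
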