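import Mathlib

/-! # [CTR] the contraction theorem -/

set_option autoImplicit false
set_option linter.unusedSectionVars false

namespace Pool.Agent.H980.Ctr

open Finset

/-! ### alternating sums over subsets -/

section alt

variable {ι : Type} [DecidableEq ι]

/-- alternating sum over subsets -/
noncomputable def alt (J : Finset ι) (g : Finset ι → ℝ) : ℝ :=
  ∑ U ∈ J.powerset, (-1 : ℝ) ^ (J.card + U.card) * g U

lemma alt_congr {J : Finset ι} {g g' : Finset ι → ℝ} (h : ∀ U, U ⊆ J → g U = g' U) :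
    alt J g = alt J g' := by
  unfold alt
  refine sum_congr rfl fun U hU => ?_
  rw [h U (mem_powerset.1 hU)]

lemma alt_insert {J : Finset ι} {a : ι} (ha : a ∉ J) (g : Finset ι → ℝ) :
    alt (insert a J) g = -alt J g + alt J (fun U => g (insert a U)) := by
  unfold alt
  rw [sum_powerset_insert ha, card_insert_of_notMem ha, ← sum_neg_distrib]
  congr 1
  · refine sum_congr rfl fun U _ => ?_
    ring
  · refine sum_congr rfl fun U hU => ?_
    have hU' : a ∉ U := fun h => ha (mem_powerset.1 hU h)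
    rw [card_insert_of_notMem hU']
    ring

lemma alt_eq_zero {J : Finset ι} {g : Finset ι → ℝ} {a : ι} (ha : a ∈ J)
    (h : ∀ U, g (insert a U) = g U) : alt J g = 0 := by
  rw [← insert_erase ha, alt_insert (notMem_erase a J)]
  have : (fun U => g (insert a U)) = g := by
    funext U
    exact h U
  rw [this]
  ring

lemma sum_alt (T : Finset ι) : ∀ g : Finset ι → ℝ, ∑ J ∈ T.powerset, alt J g = g T := by
  induction T using Finset.induction_on with
  | empty =>
    intro g
    simp [alt]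
  | insert a T ha ih =>
    intro g
    rw [sum_powerset_insert ha]
    have h1 : ∑ J ∈ T.powerset, alt (insert a J) g =
        ∑ J ∈ T.powerset, (-alt J g + alt J (fun U => g (insert a U))) := by
      refine sum_congr rfl fun J hJ => ?_
      exact alt_insert (fun h => ha (mem_powerset.1 hJ h)) g
    rw [h1, sum_add_distrib, sum_neg_distrib, ih (fun U => g (insert a U))]
    ring

lemma abs_alt_le {J : Finset ι} {g : Finset ι → ℝ} {X : ℝ} (h : ∀ U, U ⊆ J → |g U| ≤ X) :
    |alt J g| ≤ 2 ^ J.card * X := by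
  unfold alt
  refine (abs_sum_le_sum_abs _ _).trans ?_
  have h1 : ∀ U ∈ J.powerset, |(-1 : ℝ) ^ (J.card + U.card) * g U| ≤ X := by
    intro U hU
    rw [abs_mul, abs_pow, abs_neg, abs_one, one_pow, one_mul]
    exact h U (mem_powerset.1 hU)
  refine (sum_le_card_nsmul _ _ _ h1).trans ?_
  rw [card_powerset, nsmul_eq_mul]
  push_cast
  rfl

end alt

/-! ### expectations -/

variable {ι S : Type} [Fintype ι] [DecidableEq ι] [Fintype S]

/-- expectation -/
noncomputable def E (f : (ι → S) → ℝ) : ℝ := (∑ z, f z) / (Fintype.card (ι → S) : ℝ)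

/-- conditional expectation given the coordinates in `V` -/
noncomputable def A (V : Finset ι) (f : (ι → S) → ℝ) (z : ι → S) : ℝ :=
  E fun z' => f (V.piecewise z z')

lemma E_add (f g : (ι → S) → ℝ) : E (fun z => f z + g z) = E f + E g := by
  unfold E
  rw [sum_add_distrib, add_div]

lemma E_sub (f g : (ι → S) → ℝ) : E (fun z => f z - g z) = E f - E g := by
  unfold E
  rw [sum_sub_distrib, sub_div]

lemma E_mul_left (c : ℝ) (f : (ι → S) → ℝ) : E (fun z => c * f z) = c * E f := by
  unfold E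
  rw [← mul_sum, mul_div_assoc]

lemma E_sum {α : Type} (s : Finset α) (f : α → (ι → S) → ℝ) :
    E (fun z => ∑ a ∈ s, f a z) = ∑ a ∈ s, E (f a) := by
  unfold E
  rw [sum_comm, sum_div]

lemma E_mono {f g : (ι → S) → ℝ} (h : ∀ z, f z ≤ g z) : E f ≤ E g := by
  unfold E
  gcongr with z
  exact h z

lemma E_nonneg {f : (ι → S) → ℝ} (h : ∀ z, 0 ≤ f z) : 0 ≤ E f := by
  unfold E
  have := sum_nonneg fun z (_ : z ∈ (univ : Finset (ι → S))) => h z
  positivity

lemma abs_E_le (f : (ι → S) → ℝ) : |E f| ≤ E (fun z => |f z|) := by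
  unfold E
  rw [abs_div, abs_of_nonneg (a := (Fintype.card (ι → S) : ℝ)) (by positivity)]
  gcongr
  exact abs_sum_le_sum_abs _ _

section ne

variable [Nonempty S]

lemma card_pos' : (0 : ℝ) < (Fintype.card (ι → S) : ℝ) := by
  exact_mod_cast Fintype.card_pos

lemma E_const (c : ℝ) : E (fun _ : ι → S => c) = c := by
  unfold E
  rw [sum_const, card_univ, nsmul_eq_mul]
  field_simp [(card_pos' (ι := ι) (S := S)).ne']

/-- the exchange bijection -/
lemma E_tower (V : Finset ι) (f : (ι → S) → ℝ) :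
    E (fun z' => E fun z'' => f (V.piecewise z' z'')) = E f := by
  have hN := (card_pos' (ι := ι) (S := S)).ne'
  set N : ℝ := (Fintype.card (ι → S) : ℝ) with hNdef
  have hinv : Function.Involutive
      (fun p : (ι → S) × (ι → S) => (V.piecewise p.1 p.2, V.piecewise p.2 p.1)) := by
    intro p
    refine Prod.ext ?_ ?_
    · funext i
      by_cases hi : i ∈ V <;> simp [hi]
    · funext i
      by_cases hi : i ∈ V <;> simp [hi]
  have h1 : ∑ p : (ι → S) × (ι → S), f (V.piecewise p.1 p.2) =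
      ∑ p : (ι → S) × (ι → S), f p.1 :=
    Fintype.sum_equiv hinv.toPerm _ _ (fun p => rfl)
  rw [Fintype.sum_prod_type, Fintype.sum_prod_type] at h1
  unfold E
  rw [← sum_div, h1]
  simp only [sum_const, card_univ, nsmul_eq_mul]
  rw [← mul_sum, ← hNdef]
  field_simp

lemma piecewise_piecewise_sub {K L : Finset ι} (h : K ⊆ L) (x z' z'' : ι → S) :
    L.piecewise (K.piecewise x z') z'' = K.piecewise x (L.piecewise z' z'') := by
  funext i
  by_cases hi : i ∈ K
  · simp [hi, h hi]
  · by_cases hi' : i ∈ L <;> simp [hi, hi']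

lemma A_mul {I V : Finset ι} (hIV : I ⊆ V) (w g : (ι → S) → ℝ)
    (hg : ∀ z z' : ι → S, (∀ i ∈ V, z i = z' i) → g z = g z') (x : ι → S) :
    A I (fun y => w y * g y) x = A I (fun y => A V w y * g y) x := by
  unfold A
  rw [← E_tower V]
  congr 1
  funext z'
  change (E fun z'' => w (I.piecewise x (V.piecewise z' z'')) *
    g (I.piecewise x (V.piecewise z' z''))) =
      (E fun z'' => w (V.piecewise (I.piecewise x z') z'')) * g (I.piecewise x z')
  rw [mul_comm, ← E_mul_left]
  congr 1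
  funext z''
  rw [piecewise_piecewise_sub hIV, mul_comm]
  congr 1
  refine hg _ _ fun i hi => ?_
  by_cases hi' : i ∈ I <;> simp [hi, hi']

lemma A_A {K L : Finset ι} (h : K ⊆ L) (f : (ι → S) → ℝ) (x : ι → S) :
    A K (A L f) x = A K f x := by
  have := A_mul h f (fun _ => 1) (fun _ _ _ => rfl) x
  simpa using this.symm

end ne

lemma A_congr {V : Finset ι} {z z' : ι → S} (h : ∀ i ∈ V, z i = z' i) (f : (ι → S) → ℝ) :
    A V f z = A V f z' := by
  unfold A
  congr 1
  funext y
  congr 1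
  funext i
  by_cases hi : i ∈ V
  · simp [hi, h i hi]
  · simp [hi]

lemma A_add {V : Finset ι} (f g : (ι → S) → ℝ) (x : ι → S) :
    A V (fun z => f z + g z) x = A V f x + A V g x := E_add _ _

lemma A_sub {V : Finset ι} (f g : (ι → S) → ℝ) (x : ι → S) :
    A V (fun z => f z - g z) x = A V f x - A V g x := E_sub _ _

lemma A_mul_left {V : Finset ι} (c : ℝ) (f : (ι → S) → ℝ) (x : ι → S) :
    A V (fun z => c * f z) x = c * A V f x := E_mul_left _ _

lemma abs_A_le {V : Finset ι} (f : (ι → S) → ℝ) (x : ι → S) :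
    |A V f x| ≤ A V (fun z => |f z|) x := abs_E_le _

lemma A_mono {V : Finset ι} {f g : (ι → S) → ℝ} (h : ∀ z, f z ≤ g z) (x : ι → S) :
    A V f x ≤ A V g x := E_mono fun _ => h _

lemma A_nonneg {V : Finset ι} {f : (ι → S) → ℝ} (h : ∀ z, 0 ≤ f z) (x : ι → S) :
    0 ≤ A V f x := E_nonneg fun _ => h _

lemma A_ext {V W : Finset ι} {f g : (ι → S) → ℝ} {z x : ι → S}
    (h : ∀ z', f (V.piecewise z z') = g (W.piecewise x z')) : A V f z = A W g x := by
  unfold A
  congr 1
  funext z'
  exact h z'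

lemma A_const [Nonempty S] {V : Finset ι} {f : (ι → S) → ℝ} {z : ι → S} {c : ℝ}
    (h : ∀ z', f (V.piecewise z z') = c) : A V f z = c := by
  unfold A
  have : (fun z' => f (V.piecewise z z')) = fun _ => c := by
    funext z'
    exact h z'
  rw [this, E_const]

lemma A_sum {α : Type} (V : Finset ι) (s : Finset α) (f : α → (ι → S) → ℝ) (x : ι → S) :
    A V (fun z => ∑ a ∈ s, f a z) x = ∑ a ∈ s, A V (f a) x := by
  unfold A
  exact E_sum s _

open Classical in
lemma A_markov {K : Finset ι} {f : (ι → S) → ℝ} {c : ℝ} (hc : 0 < c) (hf : ∀ z, 0 ≤ f z)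
    (x : ι → S) : A K (fun y => if c < f y then (1 : ℝ) else 0) x ≤ A K f x / c := by
  rw [le_div_iff₀ hc]
  unfold A
  rw [mul_comm, ← E_mul_left]
  refine E_mono fun z' => ?_
  change c * (if c < f (K.piecewise x z') then (1 : ℝ) else 0) ≤ f (K.piecewise x z')
  split_ifs with h
  · linarith
  · have := hf (K.piecewise x z')
    linarith

/-! ### the argument for a fixed good `b` -/

section main

variable [Nonempty S] (n : ℕ) (w G : (ι → S) → ℝ) (δ : ℝ) (b : ι → S)

/-- total deviation -/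
noncomputable def Phi (z : ι → S) : ℝ :=
  ∑ V ∈ (univ : Finset (Finset ι)).filter (fun V => V.card ≤ 2 * n), |A V w z - 1|

/-- `z` is `b`-good on `I` -/
def BG (I : Finset ι) (z : ι → S) : Prop :=
  ∀ I' ⊆ I, ∀ L : Finset ι, L.card ≤ n → A L (Phi n w) (I'.piecewise z b) ≤ δ ^ (n + 1 - L.card)

/-- Moebius differences -/
noncomputable def H (J : Finset ι) (z : ι → S) : ℝ := alt J fun U => G (U.piecewise z b)

open Classical in
/-- indicator of being good -/
noncomputable def beta (J : Finset ι) (z : ι → S) : ℝ := if BG n w δ b J z then 1 else 0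

/-- truncated differences -/
noncomputable def k (J : Finset ι) (z : ι → S) : ℝ := beta n w δ b J z * H G b J z

lemma Phi_nonneg (z : ι → S) : 0 ≤ Phi n w z := sum_nonneg fun _ _ => abs_nonneg _

lemma pw_congr {I' : Finset ι} {z z' : ι → S} (h : ∀ i ∈ I', z i = z' i) :
    I'.piecewise z b = I'.piecewise z' b := by
  funext i
  by_cases hi : i ∈ I'
  · simp [hi, h i hi]
  · simp [hi]

lemma BG_congr {J : Finset ι} {z z' : ι → S} (h : ∀ i ∈ J, z i = z' i) :
    BG n w δ b J z ↔ BG n w δ b J z' := by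
  unfold BG
  constructor
  · intro hz I' hI' L hL
    rw [← pw_congr b (fun i hi => h i (hI' hi))]
    exact hz I' hI' L hL
  · intro hz I' hI' L hL
    rw [pw_congr b (fun i hi => h i (hI' hi))]
    exact hz I' hI' L hL

lemma H_congr {J : Finset ι} {z z' : ι → S} (h : ∀ i ∈ J, z i = z' i) :
    H G b J z = H G b J z' := by
  unfold H
  refine alt_congr fun U hU => ?_
  rw [pw_congr b (fun i hi => h i (hU hi))]

lemma beta_congr {J : Finset ι} {z z' : ι → S} (h : ∀ i ∈ J, z i = z' i) :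
    beta n w δ b J z = beta n w δ b J z' := by
  unfold beta
  have := BG_congr n w δ b h
  by_cases h1 : BG n w δ b J z
  · rw [if_pos h1, if_pos (this.1 h1)]
  · rw [if_neg h1, if_neg (fun h2 => h1 (this.2 h2))]

lemma k_congr {J : Finset ι} {z z' : ι → S} (h : ∀ i ∈ J, z i = z' i) :
    k n w G δ b J z = k n w G δ b J z' := by
  unfold k
  rw [beta_congr n w δ b h, H_congr G b h]

lemma H_eq_zero_of_eq {J : Finset ι} {z : ι → S} {a : ι} (ha : a ∈ J) (h : z a = b a) :
    H G b J z = 0 := by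
  unfold H
  refine alt_eq_zero ha fun U => ?_
  congr 1
  funext i
  by_cases hi : i = a
  · subst hi
    by_cases hU : i ∈ U <;> simp [hU, h]
  · by_cases hU : i ∈ U <;> simp [hU, hi]

lemma sum_H (z : ι → S) : ∑ J : Finset ι, H G b J z = G z := by
  have := sum_alt (univ : Finset ι) (fun U => G (U.piecewise z b))
  rw [powerset_univ] at this
  unfold H
  rw [this]
  congr 1
  funext i
  simp

lemma H_degree (hG : ∃ F : (Fin n → ι) → (Fin n → S) → ℝ, ∀ z, G z = ∑ j, F j (z ∘ j))
    {J : Finset ι} (hJ : n < J.card) (z : ι → S) : H G b J z = 0 := by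
  obtain ⟨F, hF⟩ := hG
  unfold H alt
  simp_rw [hF, mul_sum]
  rw [sum_comm]
  refine sum_eq_zero fun j _ => ?_
  obtain ⟨a, haJ, haj⟩ : ∃ a ∈ J, a ∉ univ.image j := by
    by_contra hcon
    push Not at hcon
    have h1 : J ⊆ univ.image j := fun a ha => hcon a ha
    have h2 := (card_le_card h1).trans card_image_le
    rw [card_univ, Fintype.card_fin] at h2
    omega
  have := alt_eq_zero (g := fun U => F j ((U.piecewise z b) ∘ j)) haJ ?_
  · exact this
  · intro U
    congr 1
    funext i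
    have : j i ≠ a := fun h => haj (by rw [← h]; exact mem_image_of_mem _ (mem_univ i))
    by_cases hU : j i ∈ U <;> simp [hU, this]

variable {n w G δ b}

lemma beta_nonneg (J : Finset ι) (z : ι → S) : 0 ≤ beta n w δ b J z := by
  unfold beta
  split_ifs <;> norm_num

lemma beta_le_one (J : Finset ι) (z : ι → S) : beta n w δ b J z ≤ 1 := by
  unfold beta
  split_ifs <;> norm_num

/-- (d) -/
lemma dev_le (hδ : 0 < δ) (hδ1 : δ ≤ 1) {I J ω : Finset ι} (hI : I.card ≤ n) (hJ : J.card ≤ n)
    (hω : ω ⊆ I) {z : ι → S} (hz : BG n w δ b I z) :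
    A I (fun y => |A (I ∪ J) w y - 1|) (ω.piecewise z b) ≤ δ := by
  have h1 := hz ω hω I hI
  have h2 : δ ^ (n + 1 - I.card) ≤ δ := by
    calc δ ^ (n + 1 - I.card) ≤ δ ^ 1 := pow_le_pow_of_le_one hδ.le hδ1 (by omega)
      _ = δ := pow_one δ
  refine le_trans (A_mono (fun y => ?_) _) (h1.trans h2)
  unfold Phi
  have hmem : I ∪ J ∈ (univ : Finset (Finset ι)).filter (fun V => V.card ≤ 2 * n) := by
    simp only [mem_filter, mem_univ, true_and]
    have := card_union_le I J
    omega
  exact single_le_sum (f := fun V => |A V w y - 1|) (fun V _ => abs_nonneg _) hmem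

/-- number of finsets -/
noncomputable def PP (ι : Type) [Fintype ι] : ℝ := (Fintype.card (Finset ι) : ℝ)

lemma one_le_PP : 1 ≤ PP ι := by
  unfold PP
  exact_mod_cast Fintype.card_pos

lemma sum_le_PP (s : Finset (Finset ι)) (f : Finset ι → ℝ) (c : ℝ) (hc : 0 ≤ c)
    (h : ∀ J ∈ s, f J ≤ c) : ∑ J ∈ s, f J ≤ PP ι * c := by
  refine (sum_le_card_nsmul s f c h).trans ?_
  rw [nsmul_eq_mul]
  refine mul_le_mul_of_nonneg_right ?_ hc
  unfold PP
  exact_mod_cast card_le_univ s

open Classical in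
/-- (c), one constraint -/
lemma bad_one (hδ : 0 < δ) (hδ1 : δ ≤ 1) {I J' ω L : Finset ι} (hω : ω ⊆ I)
    (hL : L.card ≤ n) {z : ι → S} (hz : BG n w δ b I z) :
    A I (fun y => if δ ^ (n + 1 - L.card) < A L (Phi n w) (J'.piecewise y b) then (1 : ℝ) else 0)
      (ω.piecewise z b) ≤ δ := by
  set K : Finset ι := L \ (J' \ I) with hK
  set x : ι → S := (J' ∩ ω).piecewise z b with hx
  have hKL : K ⊆ L := sdiff_subset
  have hxω : J' ∩ ω ⊆ I := inter_subset_right.trans hω
  have hKn : K.card ≤ n := (card_le_card hKL).trans hL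
  have hPhi : ∀ z' : ι → S, A L (Phi n w) (J'.piecewise (I.piecewise (ω.piecewise z b) z') b) =
      A L (Phi n w) (K.piecewise x z') := by
    intro z'
    refine A_congr (fun i hi => ?_) _
    by_cases h1 : i ∈ J'
    · by_cases h2 : i ∈ I
      · have h3 : i ∈ K := by simp [hK, hi, h2]
        by_cases h4 : i ∈ ω <;> simp [h1, h2, h3, h4, hx]
      · have h3 : i ∉ K := by simp [hK, hi, h1, h2]
        simp [h1, h2, h3]
    · have h3 : i ∈ K := by simp [hK, hi, h1]
      simp [h1, h3, hx]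
  have h0 : A I (fun y => if δ ^ (n + 1 - L.card) < A L (Phi n w) (J'.piecewise y b)
      then (1 : ℝ) else 0) (ω.piecewise z b) =
      A K (fun y => if δ ^ (n + 1 - L.card) < A L (Phi n w) y then (1 : ℝ) else 0) x := by
    refine A_ext fun z' => ?_
    have := hPhi z'
    change (if δ ^ (n + 1 - L.card) < A L (Phi n w)
      (J'.piecewise (I.piecewise (ω.piecewise z b) z') b) then (1 : ℝ) else 0) =
      (if δ ^ (n + 1 - L.card) < A L (Phi n w) (K.piecewise x z') then (1 : ℝ) else 0)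
    rw [this]
  rw [h0]
  by_cases hKL' : K = L
  · have h1 : A K (fun y => if δ ^ (n + 1 - L.card) < A L (Phi n w) y then (1 : ℝ) else 0) x =
        0 := by
      refine A_const fun z' => ?_
      have h3 : A L (Phi n w) (K.piecewise x z') = A L (Phi n w) x := by
        refine A_congr (fun i hi => ?_) _
        rw [← hKL'] at hi
        simp [hi]
      have h4 := hz _ hxω L hL
      refine if_neg ?_
      rw [h3]
      exact not_lt.2 h4
    rw [h1]
    exact hδ.le
  · have hlt : K.card < L.card := card_lt_card (hKL.ssubset_of_ne hKL')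
    have hc : 0 < δ ^ (n + 1 - L.card) := pow_pos hδ _
    refine (A_markov hc (fun y => A_nonneg (Phi_nonneg n w) y) x).trans ?_
    rw [A_A hKL, div_le_iff₀ hc]
    refine (hz _ hxω K hKn).trans ?_
    calc δ ^ (n + 1 - K.card) ≤ δ ^ (1 + (n + 1 - L.card)) :=
          pow_le_pow_of_le_one hδ.le hδ1 (by omega)
      _ = δ * δ ^ (n + 1 - L.card) := by rw [pow_add, pow_one]

/-- (c) -/
lemma bad_le (hδ : 0 < δ) (hδ1 : δ ≤ 1) {I ω : Finset ι} (J : Finset ι) (hω : ω ⊆ I)
    {z : ι → S} (hz : BG n w δ b I z) :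
    A I (fun y => 1 - beta n w δ b J y) (ω.piecewise z b) ≤ PP ι * (PP ι * δ) := by
  classical
  have h1 : ∀ y : ι → S, 1 - beta n w δ b J y ≤ ∑ J' ∈ J.powerset,
      ∑ L ∈ (univ : Finset (Finset ι)).filter (fun L => L.card ≤ n),
        if δ ^ (n + 1 - L.card) < A L (Phi n w) (J'.piecewise y b) then (1 : ℝ) else 0 := by
    intro y
    have hnn : ∀ J' ∈ J.powerset, (0 : ℝ) ≤
        ∑ L ∈ (univ : Finset (Finset ι)).filter (fun L => L.card ≤ n),
        if δ ^ (n + 1 - L.card) < A L (Phi n w) (J'.piecewise y b) then (1 : ℝ) else 0 := by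
      intro J' _
      refine sum_nonneg fun L _ => ?_
      split_ifs <;> norm_num
    unfold beta
    split_ifs with h
    · rw [sub_self]
      exact sum_nonneg hnn
    · rw [sub_zero]
      unfold BG at h
      push Not at h
      obtain ⟨J', hJ', L, hL, hlt⟩ := h
      refine le_trans ?_ (single_le_sum hnn (mem_powerset.2 hJ'))
      have h2 := single_le_sum (s := (univ : Finset (Finset ι)).filter (fun L => L.card ≤ n))
        (f := fun L => if δ ^ (n + 1 - L.card) < A L (Phi n w) (J'.piecewise y b)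
          then (1 : ℝ) else 0) (fun L _ => by split_ifs <;> norm_num) (a := L)
        (by simp [hL])
      refine le_trans ?_ h2
      rw [if_pos hlt]
  refine (A_mono h1 _).trans ?_
  rw [A_sum]
  have hP : 0 ≤ PP ι := zero_le_one.trans one_le_PP
  refine sum_le_PP _ _ _ (by positivity) fun J' _ => ?_
  rw [A_sum]
  refine sum_le_PP _ _ _ hδ.le fun L hL => ?_
  exact bad_one hδ hδ1 hω (mem_filter.1 hL).2 hz


open Classical in
/-- indicator of being good everywhere -/
noncomputable def chi (n : ℕ) (w : (ι → S) → ℝ) (δ : ℝ) (b : ι → S) (y : ι → S) : ℝ :=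
  if ∀ J : Finset ι, J.card ≤ n → BG n w δ b J y then 1 else 0

lemma chi_nonneg (y : ι → S) : 0 ≤ chi n w δ b y := by
  unfold chi
  split_ifs <;> norm_num

lemma chi_le_one (y : ι → S) : chi n w δ b y ≤ 1 := by
  unfold chi
  split_ifs <;> norm_num

lemma chi_mul {J : Finset ι} (hJ : J.card ≤ n) (y : ι → S) :
    chi n w δ b y * H G b J y = chi n w δ b y * k n w G δ b J y := by
  unfold chi k beta
  split_ifs with h h'
  · ring
  · exact absurd (h J hJ) h'
  · ring
  · ring

lemma one_sub_chi_le (y : ι → S) : 1 - chi n w δ b y ≤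
    ∑ J ∈ (univ : Finset (Finset ι)).filter (fun J => J.card ≤ n), (1 - beta n w δ b J y) := by
  have hnn : ∀ J ∈ (univ : Finset (Finset ι)).filter (fun J => J.card ≤ n),
      0 ≤ 1 - beta n w δ b J y := fun J _ => sub_nonneg.2 (beta_le_one J y)
  by_cases h : ∀ J : Finset ι, J.card ≤ n → BG n w δ b J y
  · have : chi n w δ b y = 1 := by
      unfold chi
      rw [if_pos h]
    rw [this, sub_self]
    exact sum_nonneg hnn
  · have h1 : chi n w δ b y = 0 := by
      unfold chi
      rw [if_neg h]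
    push Not at h
    obtain ⟨J, hJ, hJ'⟩ := h
    have h2 := single_le_sum hnn (a := J) (by simp [hJ])
    have h3 : beta n w δ b J y = 0 := by
      unfold beta
      rw [if_neg hJ']
    rw [h1]
    rw [h3] at h2
    exact h2

lemma wbeta_le (hδ : 0 < δ) (hδ1 : δ ≤ 1) {I J ω : Finset ι} (hI : I.card ≤ n)
    (hJ : J.card ≤ n) (hω : ω ⊆ I) {z : ι → S} (hz : BG n w δ b I z) :
    A I (fun y => w y * (1 - beta n w δ b J y)) (ω.piecewise z b) ≤
      δ + PP ι * (PP ι * δ) := by
  rw [A_mul (V := I ∪ J) subset_union_left w (fun y => 1 - beta n w δ b J y) ?_]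
  · refine le_trans ?_ (add_le_add (dev_le hδ hδ1 hI hJ hω hz) (bad_le hδ hδ1 J hω hz))
    rw [← A_add]
    refine A_mono (fun y => ?_) _
    have h1 := beta_nonneg (n := n) (w := w) (δ := δ) (b := b) J y
    have h2 := beta_le_one (n := n) (w := w) (δ := δ) (b := b) J y
    generalize beta n w δ b J y = t at h1 h2
    generalize A (I ∪ J) w y = s
    have h3 : s - 1 ≤ |s - 1| := le_abs_self _
    have h4 : 0 ≤ |s - 1| := abs_nonneg _
    nlinarith
  · intro z z' hzz
    rw [beta_congr n w δ b (fun i hi => hzz i (mem_union_right _ hi))]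

lemma k_abs_le {M : ℝ} (hM0 : 0 ≤ M) {J : Finset ι}
    (hM : ∀ y, BG n w δ b J y → |H G b J y| ≤ M) (y : ι → S) : |k n w G δ b J y| ≤ M := by
  unfold k beta
  split_ifs with h
  · rw [one_mul]
    exact hM y h
  · rw [zero_mul, abs_zero]
    exact hM0

lemma est (hw : ∀ y, 0 ≤ w y) (hδ : 0 < δ) (hδ1 : δ ≤ 1) {I J ω : Finset ι} (hI : I.card ≤ n)
    (hJ : J.card ≤ n) (hω : ω ⊆ I) {z : ι → S} (hz : BG n w δ b I z) {M : ℝ} (hM0 : 0 ≤ M)
    (hM : ∀ y, BG n w δ b J y → |H G b J y| ≤ M) :
    |A I (fun y => w y * chi n w δ b y * H G b J y) (ω.piecewise z b) -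
      A I (k n w G δ b J) (ω.piecewise z b)| ≤ 3 * PP ι ^ 3 * δ * M := by
  set X : ι → S := ω.piecewise z b with hX
  have hk := k_abs_le (n := n) (w := w) (δ := δ) (b := b) (G := G) hM0 hM
  have h1 : A I (fun y => w y * chi n w δ b y * H G b J y) X =
      A I (fun y => w y * k n w G δ b J y) X -
        A I (fun y => w y * (1 - chi n w δ b y) * k n w G δ b J y) X := by
    rw [← A_sub]
    congr 1
    funext y
    have := chi_mul (G := G) (w := w) (δ := δ) (b := b) hJ y
    rw [mul_assoc, this]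
    ring
  have h2 : |A I (fun y => w y * k n w G δ b J y) X - A I (k n w G δ b J) X| ≤ M * δ := by
    rw [A_mul (V := I ∪ J) subset_union_left w (k n w G δ b J)
      (fun z z' h => k_congr n w G δ b (fun i hi => h i (mem_union_right _ hi)))]
    refine le_trans ?_ (mul_le_mul_of_nonneg_left (dev_le hδ hδ1 hI hJ hω hz) hM0)
    have e1 : A I (k n w G δ b J) X = A I (fun y => k n w G δ b J y) X := rfl
    rw [e1, ← A_sub, ← A_mul_left]
    refine (abs_A_le _ _).trans (A_mono (fun y => ?_) _)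
    rw [← sub_one_mul, abs_mul, mul_comm]
    exact mul_le_mul_of_nonneg_right (hk y) (abs_nonneg _)
  have hP1 := one_le_PP (ι := ι)
  have h3 : |A I (fun y => w y * (1 - chi n w δ b y) * k n w G δ b J y) X| ≤
      M * (PP ι * (δ + PP ι * (PP ι * δ))) := by
    have h4 : ∑ J ∈ (univ : Finset (Finset ι)).filter (fun J => J.card ≤ n),
        A I (fun y => w y * (1 - beta n w δ b J y)) X ≤ PP ι * (δ + PP ι * (PP ι * δ)) := by
      refine sum_le_PP _ _ _ (by positivity) fun J' hJ' => ?_
      exact wbeta_le hδ hδ1 hI (mem_filter.1 hJ').2 hω hz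
    refine le_trans ?_ (mul_le_mul_of_nonneg_left h4 hM0)
    rw [← A_sum, ← A_mul_left]
    refine (abs_A_le _ _).trans (A_mono (fun y => ?_) _)
    rw [← mul_sum, abs_mul, abs_mul, abs_of_nonneg (hw y),
      abs_of_nonneg (sub_nonneg.2 (chi_le_one y)), mul_comm]
    have h5 := one_sub_chi_le (n := n) (w := w) (δ := δ) (b := b) y
    have h6 : 0 ≤ 1 - chi n w δ b y := sub_nonneg.2 (chi_le_one y)
    exact mul_le_mul (hk y) (mul_le_mul_of_nonneg_left h5 (hw y))
      (mul_nonneg (hw y) h6) hM0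
  rw [h1]
  have h7 : A I (fun y => w y * k n w G δ b J y) X -
        A I (fun y => w y * (1 - chi n w δ b y) * k n w G δ b J y) X - A I (k n w G δ b J) X =
      (A I (fun y => w y * k n w G δ b J y) X - A I (k n w G δ b J) X) -
        A I (fun y => w y * (1 - chi n w δ b y) * k n w G δ b J y) X := by ring
  rw [h7]
  refine (abs_sub _ _).trans ((add_le_add h2 h3).trans ?_)
  have hP2 : PP ι ≤ PP ι ^ 3 := by
    calc PP ι = PP ι ^ 1 := (pow_one _).symm
      _ ≤ PP ι ^ 3 := pow_le_pow_right₀ hP1 (by norm_num)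
  have hP3 : 1 ≤ PP ι ^ 3 := one_le_pow₀ hP1
  have hMδ : 0 ≤ M * δ := mul_nonneg hM0 hδ.le
  have h8 : M * δ + M * (PP ι * (δ + PP ι * (PP ι * δ))) = (M * δ) * (1 + PP ι + PP ι ^ 3) := by
    ring
  rw [h8]
  have h9 : 3 * PP ι ^ 3 * δ * M = (M * δ) * (3 * PP ι ^ 3) := by ring
  rw [h9]
  exact mul_le_mul_of_nonneg_left (by linarith) hMδ

lemma sum_k_le (hw : ∀ y, 0 ≤ w y) (hwG : ∀ y, w y ≠ 0 → G y = 0)
    (hG : ∃ F : (Fin n → ι) → (Fin n → S) → ℝ, ∀ z, G z = ∑ j, F j (z ∘ j))
    (hδ : 0 < δ) (hδ1 : δ ≤ 1) {I ω : Finset ι} (hI : I.card ≤ n)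
    (hω : ω ⊆ I) {z : ι → S} (hz : BG n w δ b I z) {M : ℝ} (hM0 : 0 ≤ M)
    (hM : ∀ J : Finset ι, J.card ≤ n → ∀ y, BG n w δ b J y → |H G b J y| ≤ M) :
    |∑ J ∈ (univ : Finset (Finset ι)).filter (fun J => J.card ≤ n),
      A I (k n w G δ b J) (ω.piecewise z b)| ≤ PP ι * (3 * PP ι ^ 3 * δ * M) := by
  set X : ι → S := ω.piecewise z b with hX
  have h0 : ∑ J ∈ (univ : Finset (Finset ι)).filter (fun J => J.card ≤ n),
      A I (fun y => w y * chi n w δ b y * H G b J y) X = 0 := by
    rw [← A_sum]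
    have h9 : ∀ y : ι → S, ∑ J ∈ (univ : Finset (Finset ι)).filter
        (fun J => J.card ≤ n), w y * chi n w δ b y * H G b J y = 0 := by
      intro y
      rw [← mul_sum]
      have h1 : ∑ J ∈ (univ : Finset (Finset ι)).filter (fun J => J.card ≤ n), H G b J y =
          G y := by
        rw [← sum_H G b y]
        refine sum_subset (filter_subset _ _) fun J _ hJ => ?_
        refine H_degree n G b hG ?_ y
        simpa using hJ
      rw [h1]
      by_cases hwy : w y = 0
      · rw [hwy]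
        ring
      · rw [hwG y hwy]
        ring
    exact A_const fun z' => h9 _
  have h1 : ∑ J ∈ (univ : Finset (Finset ι)).filter (fun J => J.card ≤ n),
      A I (k n w G δ b J) X = ∑ J ∈ (univ : Finset (Finset ι)).filter (fun J => J.card ≤ n),
        (A I (k n w G δ b J) X - A I (fun y => w y * chi n w δ b y * H G b J y) X) := by
    rw [sum_sub_distrib, h0, sub_zero]
  rw [h1]
  have hP1 := one_le_PP (ι := ι)
  refine (abs_sum_le_sum_abs _ _).trans (sum_le_PP _ _ _ (by positivity) fun J hJ => ?_)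
  rw [abs_sub_comm]
  exact est hw hδ hδ1 hI (mem_filter.1 hJ).2 hω hz hM0 (hM J (mem_filter.1 hJ).2)

lemma alt_k (I J : Finset ι) (z : ι → S) :
    alt I (fun ω => A I (k n w G δ b J) (ω.piecewise z b)) =
      if I ⊆ J then A I (k n w G δ b J) z else 0 := by
  split_ifs with h
  · unfold alt
    rw [sum_eq_single I]
    · have h1 : A I (k n w G δ b J) (I.piecewise z b) = A I (k n w G δ b J) z :=
        A_congr (fun i hi => by simp [hi]) _
      simp only
      rw [h1, ← two_mul, pow_mul]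
      norm_num
    · intro U hU hUI
      obtain ⟨a, haI, haU⟩ : ∃ a ∈ I, a ∉ U := by
        by_contra hcon
        push Not at hcon
        exact hUI (Subset.antisymm (mem_powerset.1 hU) hcon)
      have h2 : A I (k n w G δ b J) (U.piecewise z b) = 0 := by
        refine A_const fun z' => ?_
        unfold k
        rw [H_eq_zero_of_eq G b (h haI) (by simp [haI, haU]), mul_zero]
      simp only
      rw [h2, mul_zero]
    · intro h1
      exact absurd (mem_powerset.2 (Subset.refl I)) h1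
  · obtain ⟨a, haI, haJ⟩ := not_subset.1 h
    refine alt_eq_zero haI fun U => ?_
    refine A_ext fun z' => ?_
    refine k_congr n w G δ b fun i hi => ?_
    have hia : i ≠ a := fun h => haJ (h ▸ hi)
    by_cases h1 : i ∈ I
    · by_cases h2 : i ∈ U <;> simp [h1, h2, hia]
    · simp [h1]

lemma alt_sum {α : Type} (I : Finset ι) (s : Finset α) (f : α → Finset ι → ℝ) :
    alt I (fun U => ∑ a ∈ s, f a U) = ∑ a ∈ s, alt I (f a) := by
  unfold alt
  simp_rw [mul_sum]
  rw [sum_comm]

/-- the recursive constants -/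
noncomputable def KK (ι : Type) [Fintype ι] : ℕ → ℝ
  | 0 => 0
  | m + 1 => 3 * PP ι ^ 5 + PP ι * KK ι m

lemma KK_nonneg (m : ℕ) : 0 ≤ KK ι m := by
  have hP1 := one_le_PP (ι := ι)
  induction m with
  | zero => exact le_refl _
  | succ m ih =>
    unfold KK
    positivity

lemma step (hw : ∀ y, 0 ≤ w y) (hwG : ∀ y, w y ≠ 0 → G y = 0)
    (hG : ∃ F : (Fin n → ι) → (Fin n → S) → ℝ, ∀ z, G z = ∑ j, F j (z ∘ j))
    (hδ : 0 < δ) (hδ1 : δ ≤ 1) {M : ℝ} (hM0 : 0 ≤ M)
    (hM : ∀ J : Finset ι, J.card ≤ n → ∀ y, BG n w δ b J y → |H G b J y| ≤ M) (m : ℕ) :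
    ∀ I : Finset ι, I.card ≤ n → n + 1 ≤ m + I.card → ∀ z, BG n w δ b I z →
      |H G b I z| ≤ KK ι m * (δ * M) := by
  have hP1 := one_le_PP (ι := ι)
  have hδM : 0 ≤ δ * M := mul_nonneg hδ.le hM0
  induction m with
  | zero =>
    intro I hI hm
    omega
  | succ m ih =>
    intro I hI hm z hz
    have h1 : |alt I (fun ω => ∑ J ∈ (univ : Finset (Finset ι)).filter (fun J => J.card ≤ n),
        A I (k n w G δ b J) (ω.piecewise z b))| ≤
          2 ^ I.card * (PP ι * (3 * PP ι ^ 3 * δ * M)) :=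
      abs_alt_le fun ω hω => sum_k_le hw hwG hG hδ hδ1 hI hω hz hM0 hM
    rw [alt_sum] at h1
    simp_rw [alt_k] at h1
    have hImem : I ∈ (univ : Finset (Finset ι)).filter (fun J => J.card ≤ n) := by simp [hI]
    rw [← add_sum_erase _ _ hImem, if_pos (Subset.refl I)] at h1
    have h2 : A I (k n w G δ b I) z = H G b I z := by
      refine A_const fun z' => ?_
      rw [k_congr n w G δ b (z' := z) (fun i hi => by simp [hi])]
      unfold k beta
      rw [if_pos hz, one_mul]
    rw [h2] at h1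
    have h3 : |∑ J ∈ ((univ : Finset (Finset ι)).filter (fun J => J.card ≤ n)).erase I,
        if I ⊆ J then A I (k n w G δ b J) z else 0| ≤ PP ι * (KK ι m * (δ * M)) := by
      have hK := KK_nonneg (ι := ι) m
      refine (abs_sum_le_sum_abs _ _).trans (sum_le_PP _ _ _ (by positivity) fun J hJ => ?_)
      split_ifs with h4
      · have hJI : J ≠ I := (mem_erase.1 hJ).1
        have hJn : J.card ≤ n := (mem_filter.1 (mem_erase.1 hJ).2).2
        have hlt : I.card < J.card := card_lt_card (h4.ssubset_of_ne hJI.symm)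
        refine (abs_A_le _ _).trans ?_
        refine (A_mono (g := fun _ => KK ι m * (δ * M)) (fun y => ?_) _).trans
          (A_const fun _ => rfl).le
        exact k_abs_le (by positivity) (ih J hJn (by omega)) _
      · rw [abs_zero]
        positivity
    have h5 : (2 : ℝ) ^ I.card ≤ PP ι := by
      unfold PP
      rw [Fintype.card_finset]
      push_cast
      exact pow_le_pow_right₀ (by norm_num) (card_le_univ I)
    have h6 : (2 : ℝ) ^ I.card * (PP ι * (3 * PP ι ^ 3 * δ * M)) ≤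
        3 * PP ι ^ 5 * (δ * M) := by
      calc (2 : ℝ) ^ I.card * (PP ι * (3 * PP ι ^ 3 * δ * M)) ≤
          PP ι * (PP ι * (3 * PP ι ^ 3 * δ * M)) :=
            mul_le_mul_of_nonneg_right h5 (by positivity)
        _ = 3 * PP ι ^ 5 * (δ * M) := by ring
    have h7 := abs_le.1 (h1.trans h6)
    have h8 := abs_le.1 h3
    rw [abs_le]
    unfold KK
    constructor
    · nlinarith [h7.1, h7.2, h8.1, h8.2]
    · nlinarith [h7.1, h7.2, h8.1, h8.2]

/-- at a good point `G` vanishes -/
lemma good_zero (hw : ∀ y, 0 ≤ w y) (hwG : ∀ y, w y ≠ 0 → G y = 0)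
    (hG : ∃ F : (Fin n → ι) → (Fin n → S) → ℝ, ∀ z, G z = ∑ j, F j (z ∘ j))
    (hδ : 0 < δ) (hδ1 : δ ≤ 1) (hKδ : KK ι (n + 1) * δ ≤ 1 / 2)
    (hb : ∀ L : Finset ι, L.card ≤ n → A L (Phi n w) b ≤ δ ^ (n + 1 - L.card)) :
    G b = 0 := by
  classical
  have hBG : BG n w δ b ∅ b := by
    intro I' hI' L hL
    have : I'.piecewise b b = b := by
      funext i
      by_cases hi : i ∈ I' <;> simp [hi]
    rw [this]
    exact hb L hL
  have hH : H G b ∅ b = G b := by
    unfold H alt
    simp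
  set T : Finset (Finset ι × (ι → S)) := univ.filter
    (fun p => p.1.card ≤ n ∧ BG n w δ b p.1 p.2) with hT
  have hTne : T.Nonempty := ⟨(∅, b), by simp [hT, hBG]⟩
  obtain ⟨p, hp, hmax⟩ := T.exists_max_image (fun p => |H G b p.1 p.2|) hTne
  have hp' := (mem_filter.1 hp).2
  have hM : ∀ J : Finset ι, J.card ≤ n → ∀ y, BG n w δ b J y → |H G b J y| ≤
      |H G b p.1 p.2| := fun J hJ y hy => hmax (J, y) (by simp [hT, hJ, hy])
  have h1 := step hw hwG hG hδ hδ1 (abs_nonneg _) hM (n + 1) p.1 hp'.1 (by omega) p.2 hp'.2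
  have h2 := hM ∅ (by simp) b hBG
  rw [hH] at h2
  have h3 : |H G b p.1 p.2| ≤ 1 / 2 * |H G b p.1 p.2| := by
    calc |H G b p.1 p.2| ≤ KK ι (n + 1) * (δ * |H G b p.1 p.2|) := h1
      _ = (KK ι (n + 1) * δ) * |H G b p.1 p.2| := by ring
      _ ≤ 1 / 2 * |H G b p.1 p.2| := mul_le_mul_of_nonneg_right hKδ (abs_nonneg _)
  have h4 : |G b| ≤ 0 := by
    have := abs_nonneg (H G b p.1 p.2)
    linarith
  exact abs_nonpos_iff.1 h4

end main

end Pool.Agent.H980.Ctr

namespace Pool.Agent.H366.GF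

open Pool.Agent.H980.Ctr in
open Finset Classical in
theorem CTR (ι : Type) [Fintype ι] [DecidableEq ι] (n : ℕ) (η : ℝ) (hη : 0 < η) :
    ∃ ε : ℝ, 0 < ε ∧ ∀ (S : Type) [Fintype S] [Nonempty S] (w G : (ι → S) → ℝ),
      (∀ z, 0 ≤ w z) →
      (∀ V : Finset ι, V.card ≤ 2 * n →
        (∑ z : ι → S, |(∑ z' : ι → S, w (V.piecewise z z')) / (Fintype.card (ι → S) : ℝ) - 1|)
          ≤ ε * (Fintype.card (ι → S) : ℝ)) →
      (∃ F : (Fin n → ι) → (Fin n → S) → ℝ, ∀ z, G z = ∑ j, F j (z ∘ j)) →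
      (∀ z, w z ≠ 0 → G z = 0) →
      (((univ : Finset (ι → S)).filter fun z => G z ≠ 0).card : ℝ) ≤
        η * (Fintype.card (ι → S) : ℝ) := by
  have hP1 := one_le_PP (ι := ι)
  have hKK : 0 < KK ι (n + 1) := by
    have := KK_nonneg (ι := ι) n
    unfold KK
    positivity
  set δ : ℝ := min 1 (1 / (2 * KK ι (n + 1))) with hδdef
  have hδ : 0 < δ := lt_min one_pos (by positivity)
  have hδ1 : δ ≤ 1 := min_le_left _ _
  have hKδ : KK ι (n + 1) * δ ≤ 1 / 2 := by
    have : δ ≤ 1 / (2 * KK ι (n + 1)) := min_le_right _ _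
    calc KK ι (n + 1) * δ ≤ KK ι (n + 1) * (1 / (2 * KK ι (n + 1))) :=
          mul_le_mul_of_nonneg_left this hKK.le
      _ = 1 / 2 := by field_simp
  refine ⟨η * δ ^ (n + 1) / PP ι ^ 2, by positivity, ?_⟩
  intro S _ _ w G hw hV hG hwG
  set ε : ℝ := η * δ ^ (n + 1) / PP ι ^ 2 with hε
  have hε0 : 0 < ε := by positivity
  have hN := card_pos' (ι := ι) (S := S)
  set N : ℝ := (Fintype.card (ι → S) : ℝ) with hNdef
  have hPhi : E (Phi n w) ≤ PP ι * ε := by
    unfold Phi
    rw [E_sum]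
    refine sum_le_PP _ _ _ hε0.le fun V hVm => ?_
    unfold E
    rw [div_le_iff₀ hN]
    exact hV V (mem_filter.1 hVm).2
  -- pointwise bound of the indicator
  have h1 : ∀ z : ι → S, (if G z ≠ 0 then (1 : ℝ) else 0) ≤
      ∑ L ∈ (univ : Finset (Finset ι)).filter (fun L => L.card ≤ n),
        A L (Phi n w) z / δ ^ (n + 1) := by
    intro z
    have hnn : ∀ L ∈ (univ : Finset (Finset ι)).filter (fun L => L.card ≤ n),
        0 ≤ A L (Phi n w) z / δ ^ (n + 1) := fun L _ =>
      div_nonneg (A_nonneg (Phi_nonneg n w) z) (by positivity)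
    split_ifs with h
    · by_cases hb : ∀ L : Finset ι, L.card ≤ n → A L (Phi n w) z ≤ δ ^ (n + 1 - L.card)
      · exact absurd (good_zero hw hwG hG hδ hδ1 hKδ hb) h
      · push Not at hb
        obtain ⟨L, hL, hlt⟩ := hb
        refine le_trans ?_ (single_le_sum hnn (a := L) (by simp [hL]))
        rw [le_div_iff₀ (by positivity), one_mul]
        refine le_trans ?_ hlt.le
        exact pow_le_pow_of_le_one hδ.le hδ1 (by omega)
    · exact sum_nonneg hnn
  have h2 : E (fun z => if G z ≠ 0 then (1 : ℝ) else 0) ≤ η := by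
    refine (E_mono h1).trans ?_
    rw [E_sum]
    have h3 : ∑ L ∈ (univ : Finset (Finset ι)).filter (fun L => L.card ≤ n),
        E (fun z => A L (Phi n w) z / δ ^ (n + 1)) ≤ PP ι * (PP ι * ε / δ ^ (n + 1)) := by
      refine sum_le_PP _ _ _ (by positivity) fun L _ => ?_
      have h4 : E (fun z => A L (Phi n w) z / δ ^ (n + 1)) = E (Phi n w) / δ ^ (n + 1) := by
        simp_rw [div_eq_inv_mul]
        rw [E_mul_left]
        congr 1
        exact E_tower L (Phi n w)
      rw [h4]
      gcongr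
    refine h3.trans (le_of_eq ?_)
    rw [hε]
    field_simp
  have h5 : (((univ : Finset (ι → S)).filter fun z => G z ≠ 0).card : ℝ) =
      ∑ z : ι → S, if G z ≠ 0 then (1 : ℝ) else 0 := by
    rw [sum_ite, sum_const_zero, add_zero, sum_const, nsmul_eq_mul, mul_one]
  rw [h5]
  unfold E at h2
  rwa [div_le_iff₀ hN] at h2

end Pool.Agent.H366.GF
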